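import Mathlib
import Pool.Agent.H785R2.ABC.A12
import Pool.Agent.H510R2.Div

/-!
# Few exceptions to the `n`-conjecture

The number of admissible `n`-tuples `a` with `max |a i| ≤ X` and `P (a) ≥ lam` is
`O (X ^ (1 / lam + ε))`.
-/

set_option autoImplicit false

namespace Pool.Agent.Results.MP_222ec5_nt.CountingExceptions

open Finset

/-- the product of the distinct primes dividing `n` -/
def rad (n : ℕ) : ℕ := ∏ p ∈ n.primeFactors, p

/-- admissible `n`-tuples: sum zero, gcd one, no vanishing proper subsum -/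
def Admissible {n : ℕ} (a : Fin n → ℤ) : Prop :=
  ∑ i, a i = 0 ∧ (∀ d : ℤ, (∀ i, d ∣ a i) → IsUnit d) ∧
    ∀ I : Finset (Fin n), I.Nonempty → I ≠ univ → ∑ i ∈ I, a i ≠ 0

/-- the maximum of the absolute values -/
def height {n : ℕ} (a : Fin n → ℤ) : ℕ := univ.sup (fun i => (a i).natAbs)

/-- the radical of the product -/
def radical {n : ℕ} (a : Fin n → ℤ) : ℕ := rad (∏ i, (a i).natAbs)

/-- `P (a) ≥ lam`, that is `ln (max |a i|) ≥ lam * ln (radical a)` -/
def Exceptional {n : ℕ} (a : Fin n → ℤ) (lam : ℝ) : Prop :=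
  lam * Real.log (radical a) ≤ Real.log (height a)

lemma rad_pos (n : ℕ) : 0 < rad n :=
  Finset.prod_pos (fun _ hp => (Nat.prime_of_mem_primeFactors hp).pos)

lemma rad_dvd {m n : ℕ} (h : m ∣ n) (hn : n ≠ 0) : rad m ∣ rad n := by
  unfold rad
  exact Finset.prod_dvd_prod_of_subset _ _ _ (Nat.primeFactors_mono h hn)

/-- the integers `b`, `0 < |b| ≤ X`, whose primes divide `R` -/
noncomputable def T (X R : ℕ) : Finset ℤ :=
  (Finset.Icc (-(X : ℤ)) X).filter (fun b => b ≠ 0 ∧ rad b.natAbs ∣ R)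

lemma card_T (X R : ℕ) (hR : R ≠ 0) (M : ℝ)
    (hM : ∀ g : ℕ, (((Finset.Icc 1 X).filter fun d => rad d = g).card : ℝ) ≤ M) :
    ((T X R).card : ℝ) ≤ 2 * ((R.divisors.card : ℝ) * M) := by
  classical
  set S : Finset ℕ := (Finset.Icc 1 X).filter (fun d => rad d ∣ R) with hS
  have h1 : (T X R).card ≤ 2 * S.card := by
    refine Finset.card_le_mul_card_image_of_maps_to (f := fun b : ℤ => b.natAbs) ?_ 2 ?_
    · intro b hb
      obtain ⟨h1, h2, h3⟩ := Finset.mem_filter.1 hb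
      rw [Finset.mem_Icc] at h1
      refine Finset.mem_filter.2 ⟨Finset.mem_Icc.2 ⟨?_, ?_⟩, h3⟩
      · exact Int.natAbs_pos.2 h2
      · omega
    · intro d _
      have h2 : ((T X R).filter (fun b : ℤ => b.natAbs = d)) ⊆ {(d : ℤ), -(d : ℤ)} := by
        intro b hb
        have h3 := (Finset.mem_filter.1 hb).2
        rw [Finset.mem_insert, Finset.mem_singleton]
        omega
      exact (Finset.card_le_card h2).trans Finset.card_le_two
  have h2 : S ⊆ R.divisors.biUnion (fun g => (Finset.Icc 1 X).filter fun d => rad d = g) := by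
    intro d hd
    obtain ⟨h3, h4⟩ := Finset.mem_filter.1 hd
    rw [Finset.mem_biUnion]
    exact ⟨rad d, Nat.mem_divisors.2 ⟨h4, hR⟩, Finset.mem_filter.2 ⟨h3, rfl⟩⟩
  have h3 : (S.card : ℝ) ≤ (R.divisors.card : ℝ) * M := by
    have h4 : S.card ≤ ∑ g ∈ R.divisors, ((Finset.Icc 1 X).filter fun d => rad d = g).card :=
      (Finset.card_le_card h2).trans Finset.card_biUnion_le
    calc (S.card : ℝ) ≤ ∑ g ∈ R.divisors,
          (((Finset.Icc 1 X).filter fun d => rad d = g).card : ℝ) := by exact_mod_cast h4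
      _ ≤ ∑ _g ∈ R.divisors, M := Finset.sum_le_sum (fun g _ => hM g)
      _ = _ := by rw [Finset.sum_const, nsmul_eq_mul]
  have h4 : ((T X R).card : ℝ) ≤ 2 * (S.card : ℝ) := by exact_mod_cast h1
  linarith

lemma main (n : ℕ) (hn : 3 ≤ n) (lam ε : ℝ) (hlam : 0 < lam) (hε : 0 < ε) :
    ∃ C : ℝ, ∀ X : ℕ, 1 ≤ X →
      ({a : Fin n → ℤ | Admissible a ∧ height a ≤ X ∧ Exceptional a lam}.ncard : ℝ) ≤
        C * (X : ℝ) ^ (1 / lam + ε) := by
  classical
  have hn0 : (0 : ℝ) < n := by exact_mod_cast (by omega : 0 < n)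
  set e : ℝ := ε / (n * (1 + 1 / lam)) with he
  have he0 : 0 < e := by positivity
  obtain ⟨D, hD, hA2⟩ := Pool.Agent.H785R2.ABC.stmtA2 e he0
  obtain ⟨C1, hC1, hdiv⟩ := Pool.Agent.H510R2.divisor_bound e he0
  refine ⟨(2 * (C1 * D)) ^ n, fun X hX => ?_⟩
  have hX1 : (1 : ℝ) ≤ X := by exact_mod_cast hX
  have hX0 : (0 : ℝ) < X := by linarith
  set Y : ℝ := (X : ℝ) ^ (1 / lam) with hY
  have hY0 : 0 < Y := Real.rpow_pos_of_pos hX0 _
  set Z : Finset (Fin n → ℤ) :=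
    (Finset.Icc 1 ⌊Y⌋₊).biUnion (fun R => Fintype.piFinset (fun _ : Fin n => T X R)) with hZ
  have hsub : {a : Fin n → ℤ | Admissible a ∧ height a ≤ X ∧ Exceptional a lam} ⊆
      (Z : Set (Fin n → ℤ)) := by
    rintro a ⟨⟨-, -, hns⟩, hh, hex⟩
    have hne : ∀ i, a i ≠ 0 := by
      intro i
      have h1 := hns {i} (Finset.singleton_nonempty i) (by
        intro h
        have h2 := congrArg Finset.card h
        rw [Finset.card_singleton, Finset.card_univ, Fintype.card_fin] at h2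
        omega)
      rwa [Finset.sum_singleton] at h1
    have hprod : ∏ i, (a i).natAbs ≠ 0 :=
      Finset.prod_ne_zero_iff.2 (fun i _ => Int.natAbs_ne_zero.2 (hne i))
    have hR1 : 1 ≤ radical a := rad_pos _
    have hRp : (0 : ℝ) < (radical a : ℝ) := by exact_mod_cast hR1
    have hai : ∀ i, (a i).natAbs ≤ height a := fun i =>
      Finset.le_sup (f := fun i => (a i).natAbs) (Finset.mem_univ i)
    have hh1 : 1 ≤ height a := by
      have h1 := hai ⟨0, by omega⟩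
      have h2 := Int.natAbs_pos.2 (hne ⟨0, by omega⟩)
      omega
    have hhp : (0 : ℝ) < (height a : ℝ) := by exact_mod_cast hh1
    have hRY : (radical a : ℝ) ≤ Y := by
      have h1 : lam * Real.log (radical a) ≤ Real.log X :=
        hex.trans (Real.log_le_log hhp (by exact_mod_cast hh))
      have h2 : Real.log (radical a) ≤ Real.log Y := by
        rw [hY, Real.log_rpow hX0, one_div, inv_mul_eq_div, le_div_iff₀ hlam]
        linarith
      exact (Real.log_le_log_iff hRp hY0).1 h2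
    rw [hZ, Finset.mem_coe, Finset.mem_biUnion]
    refine ⟨radical a, Finset.mem_Icc.2 ⟨hR1, Nat.le_floor hRY⟩, ?_⟩
    rw [Fintype.mem_piFinset]
    intro i
    refine Finset.mem_filter.2 ⟨?_, hne i, ?_⟩
    · have h1 := (hai i).trans hh
      rw [Finset.mem_Icc]
      omega
    · exact rad_dvd (Finset.dvd_prod_of_mem _ (Finset.mem_univ i)) hprod
  have hcard : ({a : Fin n → ℤ | Admissible a ∧ height a ≤ X ∧ Exceptional a lam}.ncard : ℝ) ≤
      (Z.card : ℝ) := by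
    have h1 := Set.ncard_le_ncard hsub Z.finite_toSet
    rw [Set.ncard_coe_finset] at h1
    exact_mod_cast h1
  refine hcard.trans ?_
  have hT : ∀ R ∈ Finset.Icc 1 ⌊Y⌋₊, ((T X R).card : ℝ) ≤
      2 * (C1 * D) * (X : ℝ) ^ (e * (1 + 1 / lam)) := by
    intro R hR
    rw [Finset.mem_Icc] at hR
    have h1 := card_T X R (by omega) (D * (X : ℝ) ^ e) (fun g => hA2 X hX g)
    have h2 := hdiv R hR.1
    have hRY : (R : ℝ) ≤ Y := (Nat.le_floor_iff hY0.le).1 hR.2
    have h3 : (R : ℝ) ^ e ≤ (X : ℝ) ^ (e / lam) := by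
      calc (R : ℝ) ^ e ≤ Y ^ e := Real.rpow_le_rpow (Nat.cast_nonneg _) hRY he0.le
        _ = _ := by
          rw [hY, ← Real.rpow_mul hX0.le]
          congr 1
          ring
    have h4 : (X : ℝ) ^ (e * (1 + 1 / lam)) = (X : ℝ) ^ (e / lam) * (X : ℝ) ^ e := by
      rw [← Real.rpow_add hX0]
      congr 1
      ring
    have h5 : (R.divisors.card : ℝ) ≤ C1 * (X : ℝ) ^ (e / lam) :=
      h2.trans (mul_le_mul_of_nonneg_left h3 hC1.le)
    calc ((T X R).card : ℝ) ≤ 2 * ((R.divisors.card : ℝ) * (D * (X : ℝ) ^ e)) := h1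
      _ ≤ 2 * ((C1 * (X : ℝ) ^ (e / lam)) * (D * (X : ℝ) ^ e)) := by gcongr
      _ = _ := by rw [h4]; ring
  have hZ1 : (Z.card : ℝ) ≤ ∑ R ∈ Finset.Icc 1 ⌊Y⌋₊, ((T X R).card : ℝ) ^ n := by
    have h1 : Z.card ≤ ∑ R ∈ Finset.Icc 1 ⌊Y⌋₊,
        (Fintype.piFinset (fun _ : Fin n => T X R)).card := Finset.card_biUnion_le
    have h2 : ∀ R, (Fintype.piFinset (fun _ : Fin n => T X R)).card = (T X R).card ^ n := by
      intro R
      rw [Fintype.card_piFinset, Finset.prod_const, Finset.card_univ, Fintype.card_fin]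
    simp only [h2] at h1
    exact_mod_cast h1
  calc (Z.card : ℝ) ≤ ∑ R ∈ Finset.Icc 1 ⌊Y⌋₊, ((T X R).card : ℝ) ^ n := hZ1
    _ ≤ ∑ _R ∈ Finset.Icc 1 ⌊Y⌋₊, (2 * (C1 * D) * (X : ℝ) ^ (e * (1 + 1 / lam))) ^ n :=
        Finset.sum_le_sum (fun R hR => pow_le_pow_left₀ (Nat.cast_nonneg _) (hT R hR) n)
    _ = (⌊Y⌋₊ : ℝ) * ((2 * (C1 * D)) ^ n * (X : ℝ) ^ ε) := by
        rw [Finset.sum_const, Nat.card_Icc, Nat.add_sub_cancel, nsmul_eq_mul, mul_pow]
        congr 2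
        rw [← Real.rpow_natCast, ← Real.rpow_mul hX0.le]
        congr 1
        rw [he]
        field_simp
    _ ≤ Y * ((2 * (C1 * D)) ^ n * (X : ℝ) ^ ε) := by
        refine mul_le_mul_of_nonneg_right (Nat.floor_le hY0.le) (by positivity)
    _ = _ := by
        rw [hY, Real.rpow_add hX0]
        ring

theorem result :
    (∀ n : ℕ, 3 ≤ n → ∀ lam ε : ℝ, 0 < lam → 0 < ε → ∃ C : ℝ, ∀ X : ℕ, 1 ≤ X →
      ({a : Fin n → ℤ | Admissible a ∧ height a ≤ X ∧ Exceptional a lam}.ncard : ℝ) ≤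
        C * (X : ℝ) ^ (1 / lam + ε)) ∧
    (∀ n : ℕ, 3 ≤ n → ∀ δ : ℝ, 0 < δ → ∃ C : ℝ, ∀ X : ℕ, 1 ≤ X →
      ({a : Fin n → ℤ | Admissible a ∧ height a ≤ X ∧ Exceptional a (2 * n - 5 + δ)}.ncard : ℝ) ≤
        C * (X : ℝ) ^ (1 / (2 * n - 5 : ℝ))) := by
  refine ⟨fun n hn lam ε hlam hε => main n hn lam ε hlam hε, fun n hn δ hδ => ?_⟩
  have h3 : (3 : ℝ) ≤ n := by exact_mod_cast hn
  have h5 : (0 : ℝ) < 2 * n - 5 := by linarith
  have h6 : 1 / (2 * n - 5 + δ : ℝ) < 1 / (2 * n - 5 : ℝ) :=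
    one_div_lt_one_div_of_lt h5 (by linarith)
  obtain ⟨C, hC⟩ := main n hn (2 * n - 5 + δ) (1 / (2 * n - 5 : ℝ) - 1 / (2 * n - 5 + δ : ℝ))
    (by linarith) (by linarith)
  refine ⟨C, fun X hX => (hC X hX).trans (le_of_eq ?_)⟩
  congr 2
  ring

end Pool.Agent.Results.MP_222ec5_nt.CountingExceptions
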